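import Pool.Agent.U492.VH.Main

/-!
MP_308c18_ag, Q1: the canonical degrees of the curves on the blow-ups of algebraically hyperbolic
surfaces at arbitrary finite sets of points.

Let `K` be an algebraically closed field of characteristic `0` (for example the complex numbers). Let
`M` be a closed subset `{G = 0}` of the weighted projective space over `K` with the coordinates
`x_0, …, x_n` of weight `1` and `u_v` of weight `e_v`, `v ∈ W`, such that `(x, u) ↦ x` is a finite
morphism on `M` (`FiniteOver`); all projective varieties can be given in this way, also with `W` empty.
Let `M` be a smooth surface, and suppose that `M` is algebraically hyperbolic: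

* `τ deg f ≤ 2 g - 2` for all nonconstant maps `f` from smooth projective curves, of any genus `g`, to
  `M`, with a constant `τ > 0` (`CurveBound`; `deg` is the degree for the hyperplane class of `M`).

Let `κ ≥ 0` be a number with `K_M · f ≤ κ deg f` for all these maps (`CanonicalBound`; there is such a
number for each `M`, and one can take the `κ` with `K_M = O(κ)` if there is one). Let `λ` be a linear
projection which is a finite morphism from `M` to the plane (`FinitePlane`; there are such projections
for all surfaces `M`).

**Theorem.** Let `S` be any finite set of points of `M`, let `X` be the blow-up of `M` at `S`, and let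
`Y` be a finite set of points of the plane which contains the images of the points of `S` under `λ`
(`PlaneImage`). Let `κ ≤ α τ` and `|Y| ≤ (α τ - κ) ^ 2`. Then for each `ε > 0` there is a constant `B`
with

  `K_X · C ≤ (α + ε) (2 g - 2) + B`

for all curves `C` on `X`, of geometric genus `g`, which are not contained in the exceptional divisor
(`CurveInequality`, with `w = 2`). For the exceptional curves `K_X · C = -1` and `g = 0`.

The conditions on `α` are satisfied by all large `α`. So Q1 holds for all blow-ups at finite sets of
points of the surfaces `M` which are algebraically hyperbolic, and `Λ_X ≤ 2 (κ + √|Y|) / τ`, where `Y`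
is the set of the images of the points in the plane. The theorem applies to the surfaces `M` with
`K_M` ample for which the inequality in Q1 is known with `B = 0`: the ball quotients, the quotients of
the bidisk, and the surfaces of the hand-ins RamifiedSurfaces, and others, of this problem. Miyaoka's
theorem does not apply to `X` if `S` is large, since `K_X ^ 2 = K_M ^ 2 - |S|` is then smaller than
`c_2(X) = c_2(M) + |S|`. In general, Q1 is not invariant under blow-ups: it holds for the plane, but
not for its blow-up at some finite sets of points.

The hand-in BlowupsAtManyPoints of MP_79ab39_ag is about the factor `4 + ε`, for coverings ramified over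
generic hypersurface sections, where the bound for the degrees is proved. Here `M` is an arbitrary
surface with such a bound.

A map `f` from a smooth projective curve, with function field `L`, to `M` is given by the coordinates
`z` with `z (inl c) = 1` for some `c`; if the `z` generate `L`, this is the normalisation of a curve on
`M`, and its lift to `X` is the normalisation of a curve on `X`; each curve on `X` which is not in the
exceptional divisor is obtained in this way. The degree `K_M · f` is `canX`
(`Pool/Agent/N126/RC/CanDef.lean`), computed from a basis `u` of the tangent space at `z` of the cone
over `M` (`TangentBasis`). The degree of the exceptional divisor on the lift of `f` is the sum over the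
points `p ∈ S` and over the places `P` of the orders at `P` of the ideal of `p` (`excDeg`, `pointOrd`),
and `K_X · f = K_M · f + excDeg` (`canBl`, with `w = 2`). These definitions are in
`Pool/Agent/U492/VB/Defs.lean` and `Pool/Agent/U492/VB/DefsP.lean`.

Proof. If `|Y| < σ ^ 2`, there are plane curves `ψ = 0` of degree at most `σ r` with multiplicity at
least `r ≥ 1` at the points of `Y`, and the exceptional divisor has degree at most `σ deg f` on the
lifts of the maps `f` whose images are not contained in the inverse image of `ψ = 0`; and the degrees
of the curves in this inverse image are bounded.
-/

set_option autoImplicit false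

namespace Pool.Agent.Results.MP_308c18_ag.BlowupsOfHyperbolicSurfaces

open MvPolynomial Pool.Agent.N126.RC Pool.Agent.U492.VB
open Pool.Agent.W603.LV Pool.Agent.W603.PV

/-- **Canonical degrees of curves on blow-ups of algebraically hyperbolic surfaces.** -/
theorem result {K : Type} [Field K] [IsAlgClosed K] [CharZero K] {n : ℕ}
    -- the projective surface `M = {G = 0}`
    {W ι : Type} [Fintype W] (e : W → ℕ)
    (G : ι → MvPolynomial (Fin (n + 1) ⊕ W) K)
    (hG : ∀ i, ∃ c, (G i).IsWeightedHomogeneous (wts e) c) (hfin : FiniteOver G)
    -- it is algebraically hyperbolic
    (τ : ℚ) (hτ : 0 < τ) (hM : CurveBound G τ)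
    -- the canonical degree
    (κ : ℚ) (hκ0 : 0 ≤ κ) (hκ : CanonicalBound e G 2 κ)
    -- the points, and their images in the plane
    (S : Finset (Fin (n + 1) ⊕ W → K)) (hS : PointSet e G S)
    (lam : Fin 3 → Fin (n + 1) → K) (hlam : FinitePlane lam G)
    (Y : Finset (Fin 3 → K)) (hY : PlaneImage lam S Y)
    -- the factor
    (α : ℚ) (hα : κ ≤ α * τ) (hs : (Y.card : ℚ) ≤ (α * τ - κ) ^ 2) :
    CurveInequality e G S 2 α :=
  Pool.Agent.U492.VH.curve_inequality e G hG hfin τ hτ hM κ hκ0 hκ hS lam hlam Y hY α hα hs

end Pool.Agent.Results.MP_308c18_ag.BlowupsOfHyperbolicSurfaces
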