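import Pool.Agent.U393.LG.Up

/-!
# The curves of bounded genus on the varieties dominated by products with curves

Let `C_0, ..., C_{k-1}` be smooth projective curves over `ℂ`, and let `Y` be an arbitrary variety of
dimension `n ≥ 0`. Let `V = C_0 × ... × C_{k-1} × Y`, and let `V ⇢ W` be a dominant rational map of finite
degree `δ` to any variety `W`, such that the map from `V` to `W × C_0 × ... × C_{k-1}` is generically
injective. (Otherwise replace `V` by its image.) The map need not be compatible with the product structure,
and it need not be a Galois cover. Let `b ≥ 0`, and suppose that the holomorphic differentials of `C_i`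
separate fewer than `g_i` general points, where `(b + 1) δ < g_i`; this holds if the gonality of `C_i` is
more than `(b + 1) δ`.

**Theorem.** The union of the curves of geometric genus at most `b` on `W` is Zariski dense in `W` if and
only if the union of the curves of geometric genus at most `b` on `Y` is Zariski dense in `Y`. In
particular it is not dense if `Y` is a point.

The same holds for the union of the images of all rational maps `A ⇢ W`, which are not constant, from the
members `A` of any class `C` which consists of curves of genus at most `b` and, if `b ≥ 1`, of almost
homogeneous varieties: semi-abelian varieties, homogeneous spaces. The condition that the union is dense,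
`ImagesDense C`, depends only on the function field.

So let `W` be a smooth projective surface. If `k = 2` then there are only finitely many curves of geometric
genus `g ≤ b` on `W`, and if `k = 1` and `Y` is a curve then this holds if and only if the genus of `Y` is
more than `b`. Hence in these cases the canonical degrees `K_W · C` of the curves of genus `g ≤ b` are
bounded: this is the assertion of Q1 for the curves with `g ≤ b`, for surfaces which need not have any map
to a curve of positive genus, and without any condition on `K² - c_2`. (These remarks are not part of the
Lean proof.)

Proof. Let `R` be the function field of the curve `A`, of genus at most `b`, where `A ⇢ W` has its image in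
a small open subset of `W`. Let `A' → A` be the pull-back of the cover `V ⇢ W`, a component of it with
the function field `L`, of degree at most `δ` over `R`. Suppose that `A' ⇢ V → C_i` is not constant. For
each holomorphic differential `ω` on `C_i` the trace `t(ω)` of its pull-back from `A'` to `A` is a
holomorphic differential on `A`. As there are at most `b` linearly independent ones, the values of `t(ω)`
at `b + 1` independent general points of `A` satisfy a linear relation, the same one for all `ω`. This is a
relation between the values of `ω` at at most `(b + 1) δ` different points of `C_i`, a contradiction.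
If `A` is almost homogeneous with the vector fields `D_j`, then the values of `t(ω)` at `D_j` are regular
functions along all prime divisors of `A`: at a place of `L` of the ramification index `e` the value of
`ω` at `D_j` has a pole of order at most `e - 1`. So they are constant, and their values at two
independent general points are the same. Hence `A'` is mapped to a fibre of `V ⇢ X`, where
`X = C_0 × ... × C_{k-1}`, and as `V` is generically embedded in `W × X` the map `A' → A` is birational; we
get a rational map `A ⇢ Y`, which is not constant. For the converse take the restrictions of `V ⇢ W` to
general fibres over `X`.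
-/

set_option autoImplicit false
set_option linter.overlappingInstances false

open FF Module
open Pool.Agent.N162.BC (GlobalForm)
open Pool.Agent.U393.SA (AlmostHomogeneous)

namespace Pool.Agent.Results.MP_308c18_ag.CurvesOfBoundedGenus

/-- The holomorphic differentials of the smooth projective curve with the function field `E` separate fewer
than `g` general points: let `x` be a non-constant function, let `A` be a set of fewer than `g`
embeddings of `E` into an algebraically closed field `Ω` (points with values in `Ω` which are mapped to
the generic point), and let `c σ` be elements of `Ω` such that the sum of all `c σ * σ f` is zero for all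
functions `f` for which `f dx` is a differential without poles. Then all `c σ` are zero. -/
def SeparatesPoints (E : Type) [Field E] [Algebra ℂ E] (g : ℕ) : Prop :=
  ∃ x : Fin 1 → E, IsTranscendenceBasis ℂ x ∧
    ∀ (Ω : Type) [Field Ω] [Algebra ℂ Ω] [IsAlgClosed Ω] (A : Finset (E →ₐ[ℂ] Ω)), A.card < g →
      ∀ c : (E →ₐ[ℂ] Ω) → Ω,
        (∀ f : E, GlobalForm 1 (fun D => (Matrix.of fun i j => D i (x j)).det * f) →
          ∑ σ ∈ A, c σ * σ f = 0) → ∀ σ ∈ A, c σ = 0

/-- `R` is the function field of an almost homogeneous variety over `ℂ` of positive dimension. For a
projective variety `A` this means that `A` has `dim A` vector fields which are independent at a general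
point. The curves of this type are the rational and the elliptic curves. -/
def IsAlmostHomogeneous (R : Type) [Field R] [Algebra ℂ R] : Prop :=
  Algebra.EssFiniteType ℂ R ∧ ∃ r : ℕ, Algebra.trdeg ℂ R = (r + 1 : ℕ) ∧
    AlmostHomogeneous ℂ R r

/-- `R` is the function field of a curve of genus at most `b`: the dimension of the space of the functions
`f` for which `f dz` is a differential without poles is at most `b`, where `z` is a non-constant
function. -/
def GenusAtMost (b : ℕ) (R : Type) [Field R] [Algebra ℂ R] : Prop :=
  Algebra.EssFiniteType ℂ R ∧ Algebra.trdeg ℂ R = 1 ∧ ∃ z : Fin 1 → R, IsTranscendenceBasis ℂ z ∧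
    ∃ H : Submodule ℂ R, FiniteDimensional ℂ H ∧ finrank ℂ H ≤ b ∧
      ∀ f : R, GlobalForm 1 (fun D => (Matrix.of fun i j => D i (z j)).det * f) → f ∈ H

/-- The union of the images of the rational maps, which are not constant, from the varieties of the class
`C` to the variety `W` with the function field `K` is dense in `W`: for each affine variety birational to
`W`, with the coordinate ring generated by the finite set `F`, there is a rational map which is not
constant from a variety in the class `C`, with the function field `R`, to this affine variety. -/
def ImagesDense (C : ∀ (R : Type) [Field R] [Algebra ℂ R], Prop) (K : Type) [Field K]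
    [Algebra ℂ K] : Prop :=
  ∀ F : Finset K, IntermediateField.adjoin ℂ (F : Set K) = ⊤ →
    ∃ (R : Type) (_ : Field R) (_ : Algebra ℂ R), C R ∧
      ∃ (f : Algebra.adjoin ℂ (F : Set K) →ₐ[ℂ] R) (z : Algebra.adjoin ℂ (F : Set K)),
        ∀ c : ℂ, f z ≠ algebraMap ℂ R c

/-- **The curves of bounded genus on the varieties dominated by products with curves.**
Let `V` be the function field of the product of the curves with the function fields `F i`, `i < k`, and
of the variety `Y` of dimension `n` with the function field `T`. Let `W ⊆ V` be the function field of a
variety `W`, the extension being finite, such that `V` is generated by `W` and the function fields of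
the curves. Let `b` be a natural number, and suppose that the holomorphic differentials of the `i`-th
curve separate fewer than `g i` points and that `b + 1` times the degree of `V` over `W` is less than
`g i`, for all `i`. Let `C` be any class whose members are curves of genus at most `b` or, if `b ≥ 1`,
almost homogeneous varieties of positive dimension. Then the images of the members of `C` are dense in
`W` if and only if they are dense in `Y`; and they are not dense in `W` if `n = 0`. -/
theorem result {V : Type} [Field V] [Algebra ℂ V] [Algebra.EssFiniteType ℂ V] {k n : ℕ}
    (F : Fin k → IntermediateField ℂ V) (T : IntermediateField ℂ V)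
    (hF : ∀ i, Algebra.trdeg ℂ (F i) = 1)
    (hX : Algebra.trdeg ℂ (⨆ i, F i : IntermediateField ℂ V) = k)
    (hT : Algebra.trdeg ℂ T = n) (hFT : (⨆ i, F i) ⊔ T = ⊤)
    (hV : Algebra.trdeg ℂ V = (k + n : ℕ)) (g : Fin k → ℕ)
    (hsep : ∀ i, SeparatesPoints (F i) (g i))
    (W : Type) [Field W] [Algebra ℂ W] [Algebra W V] [IsScalarTower ℂ W V] [FiniteDimensional W V]
    (hinj : IntermediateField.adjoin W (⋃ i, (F i : Set V)) = ⊤)
    (b : ℕ) (hdeg : ∀ i, (b + 1) * finrank W V < g i)
    (C : ∀ (R : Type) [Field R] [Algebra ℂ R], Prop)
    (hC : ∀ (R : Type) [Field R] [Algebra ℂ R], C R →
      GenusAtMost b R ∨ (1 ≤ b ∧ IsAlmostHomogeneous R)) :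
    (ImagesDense C W ↔ ImagesDense C T) ∧ (n = 0 → ¬ ImagesDense C W) := by
  have h1 : ImagesDense C W ↔ ImagesDense C T :=
    ⟨fun h => Pool.Agent.U393.LG.down F T (fun R _ _ hR i L _ _ _ _ _ hL y => by
        have hUe : Algebra.EssFiniteType ℂ (F i) := Pool.Agent.N999.SX.ess_any (F i)
        have h2 : (b + 1) * finrank R L < g i := lt_of_le_of_lt (Nat.mul_le_mul_left _ hL) (hdeg i)
        rcases hC R hR with h3 | ⟨hb, h3⟩
        · exact Pool.Agent.U393.LG.no_emb_genus h3 (hF i) hUe (hsep i) h2 y
        · exact Pool.Agent.U393.LG.no_emb h3 (hF i) hUe (hsep i)
            (lt_of_le_of_lt (Nat.mul_le_mul_right _ (by omega)) h2) y) hFT hF hinj h,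
      fun h => Pool.Agent.U393.LG.up (⨆ i, F i) T hFT hX hT hV h⟩
  have h2 : n = 0 → ¬ ImagesDense C T := by
    rintro rfl h
    have halg : Algebra.IsAlgebraic ℂ T := by
      rw [← trdeg_eq_zero_iff, hT]
      simp
    obtain ⟨R, _, _, -, f, z, hz⟩ := h ∅ (by
      rw [eq_top_iff]
      intro z _
      obtain ⟨c, rfl⟩ := Pool.Agent.W602.GT.const_of_algebraic (halg.isAlgebraic z)
      exact IntermediateField.algebraMap_mem _ c)
    obtain ⟨c, hc⟩ := Pool.Agent.W602.GT.const_of_algebraic (halg.isAlgebraic (z : T))
    refine hz c ?_
    have h3 : z = algebraMap ℂ _ c := Subtype.ext hc
    rw [h3, AlgHom.commutes]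
  exact ⟨h1, fun hn h => h2 hn (h1.1 h)⟩

end Pool.Agent.Results.MP_308c18_ag.CurvesOfBoundedGenus
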