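import Mathlib
import Pool.Agent.U742.LC.Alg

/-!
# Degrees of curves in subvarieties of power value varieties

MP_308c18_ag, Q1: the canonical degree of the curves on a surface is bounded by a linear function of
their geometric genus. Here this is proved for the surfaces `V` of general type, and more generally
the degrees of curves are bounded for the closed subvarieties `V` of any dimension, of general type,
of the varieties `X` of the vectors whose `m`-th powers are the values of a polynomial of degree at
most `n` at given elements (for all degrees `n`), if the polynomial of the generic point of `V` is
simple.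

`X = PowVal a n m` is the (cone over the) smooth complete intersection of dimension `n` in `P^N` of
the vectors `x` for which there is a polynomial `H` of degree at most `n` with `x i ^ m = H (a i)` for
all `i`. `Cone F` is the cone over the projective variety `V = {F = 0}`; `SubVar F K w y` and `hgen`
mean that `V` is irreducible, of dimension `w`, with function field `K` and generic point `y`.

`PseudoAlgHyp F y`: there are a constant `B` and a proper closed subset `Z = {G = 0}` of `V` such that
the degree of every morphism `f` from a smooth projective curve of genus `g` to `V` with image not in
`Z` is at most `B max (2 g - 2, 0)` (`AlgHypOff`; the curve is given by its function field `L`, the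
morphism by its homogeneous coordinates; its degree is `pht k f`, and `2 g - 2` is `canDeg k L`).

For a smooth surface `V` the set `Z` is a finite set of points and curves, and `K_V . C ≤ c deg C` for
a constant `c` and all curves `C`, so the theorem gives the inequality `K_V . C ≤ A (g - 1) + B'` of
Q1 for all curves `C` in `V`.

The hypothesis is that the codimension `n - w` of `V` in `X` is at most `2 m - 3` (for surfaces:
`n < 2 m`), or that the polynomial `H` of the generic point of `V` is not divisible by the `m`-th
power of a polynomial of degree at least two. The other points of `V` are arbitrary, `V` may contain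
planes (or plane curves, if it is a surface). The subvarieties `V` which are not of general type are
covered by lines; for them there is no such bound.
-/

set_option autoImplicit false

namespace Pool.Agent.Results.MP_308c18_ag.PowerValueSurfaces

open Pool.Agent.W602.GT Pool.Agent.Y190.BV
open Pool.Agent.U742.LC (PseudoAlgHyp)

/-- **Degrees of curves in subvarieties of power value varieties** -/
theorem result {k : Type} [Field k] [IsAlgClosed k] [CharZero k] {N n m : ℕ} (hm : 2 ≤ m)
    (hN : 4 * n + (n + 1) ^ 2 < 2 * (N + 1)) (a : Fin (N + 1) → k)
    (ha : Function.Injective a) {ι : Type} (F : ι → MvPolynomial (Fin (N + 1)) k)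
    (hF : ∀ e, IsForm (F e)) (hV : Cone F ⊆ PowVal a n m) {K : Type} [Field K] [Algebra k K]
    {w : ℕ} {y : Fin (N + 1) → K} (hy : SubVar F K w y)
    (hgen : ∀ G : MvPolynomial (Fin (N + 1)) k, IsForm G →
      (val y G = 0 ↔ ∀ x ∈ Cone F, val x G = 0))
    (h : n + 3 ≤ w + 2 * m ∨ ∃ H : Polynomial K, H.natDegree ≤ n ∧
      (∀ i, y i ^ m = H.eval (algebraMap k K (a i))) ∧ ∀ q, q ^ m ∣ H → q.natDegree ≤ 1) :
    [GeneralType k K w, PseudoAlgHyp F y, ¬ Ruled k K].TFAE :=
  Pool.Agent.U742.LC.alg hm hN ha hF hV hy hgen h

end Pool.Agent.Results.MP_308c18_ag.PowerValueSurfaces
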