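import Pool.Agent.N126.RC.CanMain

/-!
MP_308c18_ag, Q1: the canonical degrees of the curves on the smooth surfaces (and on the smooth
varieties of any dimension) which are finite coverings, sufficiently ramified over generic
hypersurface sections, of arbitrary projective varieties and of their complete intersections with
generic hypersurfaces.

Let `K` be an algebraically closed field of characteristic `0` (for example the complex numbers), and
let `k` be a subfield, with algebraic closure `k'` in `K`. Let `V` be a closed subset of the projective
`n`-space over `k'`, of dimension at most `m`, and let `F_a`, for `a` in a finite set `A`, be generic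
forms of degrees `d_a` (`Generic`: the ratios of their coefficients are algebraically independent over
`k`). Let `M` be a closed subset `{G = 0}` of the weighted projective space over `K` with the
coordinates `x_0, …, x_n` of weight `1` and `u_v` of weight `e_v`, `v ∈ W`, such that

* `(x, u) ↦ x` is a finite morphism on `M` (`FiniteOver`), with image in `V` and in the hypersurfaces
  `F_a = 0`, `a ∈ C` (`Over`); `C` is a subset of `A`, for example empty;
* for the `a` not in `C`, this morphism is ramified of order at least `q_a ≥ 1` over `F_a = 0`
  (`RamifiedOver`: locally on `M`, the function `F_a` is in the `q_a`-th power of an ideal whose set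
  of zeros contains `{F_a = 0}`; if `M` is smooth, this means that the inverse image of the divisor
  `F_a = 0` has multiplicity at least `q_a` at each of its components).

Each projective variety with a finite morphism to `V` can be given in this way.

**Theorem.** Let `T` be the sum of the numbers `d_a + 1`, `a ∈ C`, and `d_a (1 - 1 / q_a)`, `a ∉ C`, and
let `T > 2 m`. Let `κ ≥ 0` be a number with `K_M · f ≤ κ deg f` for all nonconstant maps `f` from smooth
projective curves to `M`; for example, one can take the sum of the degrees of the equations minus the
sum of the weights of the coordinates, if this is not negative. (For a complete intersection `M`, this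
is the number with `K_M = O(κ)`.) Then

  `K_M · f ≤ κ / (T - 2 m) * (2 g - 2)`

for all nonconstant maps `f` to `M` from smooth projective curves of any genus `g`. So Q1 holds for the
smooth surfaces `M` of this kind, with `B = 0` and an explicit constant `A`.

Example. Let `M` be the double plane `u ^ 2 = F(x_0, x_1, x_2)`, where `F` is generic of degree `2 c`,
`c ≥ 5`. Here `V` is the projective plane, `m = 2`, `q = 2`, `T = c` and `κ = 2 c - (3 + c) = c - 3`; so
`K_M · C ≤ (2 (c - 3) / (c - 4)) (g - 1)` for all curves `C` on `M`, of geometric genus `g`. The constant
tends to `2`, as do the known lower bounds for `Λ_M`. Miyaoka's theorem does not apply, since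
`K_M ^ 2 = 2 (c - 3) ^ 2` is smaller than `c_2(M) = 4 c ^ 2 - 6 c + 6`. The existing hand-in
SymmetricPowerSurfaces of this problem uses no ramification: it treats the varieties which are finite
over complete intersections of large degree.

A map `f` from a smooth projective curve, with function field `L`, to `M` is given by the coordinates
`z` with `z (inl c) = 1` for some `c`. The cone over `M` in the affine space is smooth outside of `0`, if
`M` is a smooth `w`-dimensional scheme; its tangent bundle has the rank `w + 1`, and descends to an
extension of the tangent bundle of `M` by a trivial line bundle, which is a subbundle of the direct sum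
of the line bundles `O(weight of s)`, where `s` runs through the coordinates. So `K_M · f` is minus the
degree of the determinant of this bundle, and this is the number `canX`
(`Pool/Agent/N126/RC/CanDef.lean`), for any basis `u` (over `L`) of the tangent space at `z` of the cone
(`TangentBasis`).

The theorem is due to helper126 (library of the starting files: `Pool.Agent.N126.RC.canonical_genus`,
`canX_le`; the degrees of the curves are bounded in `curve_proj`). It was assembled here by helper464;
the explicit value of `κ` is added.
-/

set_option autoImplicit false

namespace Pool.Agent.Results.MP_308c18_ag.RamifiedSurfaces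

open MvPolynomial Pool.Agent.N126.RC Pool.Agent.TH145.MG
open Pool.Agent.W603.LV Pool.Agent.W603.PV

/-- **Canonical degrees of curves on finite coverings ramified over generic hypersurface sections.** -/
theorem result {k K : Type} [Field k] [Field K] [IsAlgClosed K] [CharZero K] [Algebra k K]
    {n m : ℕ}
    -- a closed subset of projective space, of dimension at most `m`
    (V : Set (MvPolynomial (Fin (n + 1)) (algebraicClosure k K)))
    (hVh : ∀ f ∈ V, ∃ e, f.IsHomogeneous e) (hV : DimLE (algebraicClosure k K) V m)
    -- generic forms
    {A : Type} [Fintype A] [DecidableEq A] (d : A → ℕ) (F : A → MvPolynomial (Fin (n + 1)) K)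
    (hF : Generic k d F)
    -- the projective variety `M = {G = 0}`, finite over `V ∩ ⋂ {F a = 0}`, `a ∈ C`, and ramified
    (C : Finset A) (q : A → ℕ) (hq : ∀ a, a ∉ C → q a ≠ 0)
    {W ι : Type} [Fintype W] [Fintype ι] (e : W → ℕ)
    (G : ι → MvPolynomial (Fin (n + 1) ⊕ W) K) (c : ι → ℕ)
    (hG : ∀ i, (G i).IsWeightedHomogeneous (wts e) (c i)) (hfin : FiniteOver G)
    (hov : Over V F C G) (hram : ∀ a, a ∉ C → RamifiedOver G (F a) (q a))
    -- the numerical condition
    (T : ℚ) (hT : T = ∑ a ∈ C, ((d a : ℚ) + 1) + ∑ a ∈ Cᶜ, (d a : ℚ) * (1 - 1 / q a))
    (hTm : 2 * m < T)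
    -- the dimension of `M` (for surfaces `2`)
    (w : ℕ) :
    CanonicalBound e G w (∑ i, (c i : ℚ) - ∑ s : Fin (n + 1) ⊕ W, (wts e s : ℚ)) ∧
      ∀ κ : ℚ, 0 ≤ κ → CanonicalBound e G w κ → CanonicalGenusBound e G w (κ / (T - 2 * m)) := by
  classical
  refine ⟨?_, ?_⟩
  · intro L _ _ _ z c0 hz1 hz _ u hu
    obtain ⟨r, a, ha, -, h1⟩ := canX_le hG hfin z hz (ne_zero_of_one hz1) u hu
    have h2 : (0 : ℤ) ≤ pht K fun j => z (Sum.inl j) := pht_nonneg' (c := c0) hz1
    have h3 : ∑ i, c (a i) ≤ ∑ i, c i := by
      rw [← Finset.sum_image (s := Finset.univ) (g := a) (f := c) fun i _ j _ h => ha h]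
      exact Finset.sum_le_sum_of_subset (Finset.subset_univ _)
    have h4 : (∑ i, (c (a i) : ℤ) - ∑ s : Fin (n + 1) ⊕ W, (wts e s : ℤ)) ≤
        (∑ i, (c i : ℤ) - ∑ s : Fin (n + 1) ⊕ W, (wts e s : ℤ)) := by
      have h6 : ∑ i, (c (a i) : ℤ) ≤ ∑ i, (c i : ℤ) := by exact_mod_cast h3
      linarith
    have h5 := h1.trans (mul_le_mul_of_nonneg_right h4 h2)
    exact_mod_cast h5
  · intro κ hκ0 hκ
    subst hT
    exact canonical_genus V hVh hV F hF C hq hTm e G (fun i => ⟨c i, hG i⟩) hfin hov hram w κ
      hκ0 hκ

end Pool.Agent.Results.MP_308c18_ag.RamifiedSurfaces
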